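import Pool.Agent.W2helper20.KS.Stm

/-!
# Project KS (helper20), piece ALG
-/

set_option autoImplicit false

namespace Pool.Agent.W2helper56.KS

open Pool.Agent.W2helper20.KS

theorem p_ALG : P_ALG := by
  intro n x P B hP hB hx
  have h1 : ∑ k, x k * (∑ i, ∑ j, (x k * P i j + x i * P j k + x j * P k i) * B i j) =
      (∑ k, (x k * x k) * (∑ i, ∑ j, P i j * B i j)) +
        (∑ k, ∑ i, ∑ j, x k * (x i * P j k * B i j)) +
        (∑ k, ∑ i, ∑ j, x k * (x j * P k i * B i j)) := by
    simp only [Finset.mul_sum, ← Finset.sum_add_distrib]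
    refine Finset.sum_congr rfl fun k _ => Finset.sum_congr rfl fun i _ =>
      Finset.sum_congr rfl fun j _ => ?_
    ring
  have h2 : (∑ k, ∑ i, ∑ j, x k * (x i * P j k * B i j)) =
      ∑ i, ∑ j, P i j * (x j * ∑ a, x a * B a i) := by
    have h3 : (∑ k, ∑ i, ∑ j, x k * (x i * P j k * B i j)) =
        ∑ k, ∑ j, ∑ i, x k * (x i * P j k * B i j) :=
      Finset.sum_congr rfl fun k _ => Finset.sum_comm
    rw [h3, Finset.sum_comm]
    refine Finset.sum_congr rfl fun i _ => Finset.sum_congr rfl fun j _ => ?_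
    simp only [Finset.mul_sum]
    refine Finset.sum_congr rfl fun a _ => ?_
    ring
  have h4 : (∑ k, ∑ i, ∑ j, x k * (x j * P k i * B i j)) =
      -∑ i, ∑ j, P i j * (x i * ∑ a, x a * B a j) := by
    simp only [Finset.mul_sum, ← Finset.sum_neg_distrib]
    refine Finset.sum_congr rfl fun i _ => Finset.sum_congr rfl fun j _ =>
      Finset.sum_congr rfl fun a _ => ?_
    rw [hB j a]
    ring
  have h5 : (∑ i, ∑ j, P i j * (B i j - (x i * (∑ a, x a * B a j) - x j * (∑ a, x a * B a i)))) =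
      (∑ i, ∑ j, P i j * B i j) + (∑ i, ∑ j, P i j * (x j * ∑ a, x a * B a i)) -
        ∑ i, ∑ j, P i j * (x i * ∑ a, x a * B a j) := by
    rw [← Finset.sum_add_distrib, ← Finset.sum_sub_distrib]
    refine Finset.sum_congr rfl fun i _ => ?_
    rw [← Finset.sum_add_distrib, ← Finset.sum_sub_distrib]
    refine Finset.sum_congr rfl fun j _ => ?_
    ring
  rw [h1, h2, h4, h5, ← Finset.sum_mul, hx]
  ring

end Pool.Agent.W2helper56.KS
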